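import Mathlib

/-!
# Project GP, part ODD: the Pell equation
-/

set_option autoImplicit false

namespace Pool.Agent.J4H19.GP

/-- `p k * m` is `p` times a square and `p k`, `m` are coprime: both parts are squares. -/
lemma split {p a b y : ℤ} (hp : Prime p) (hp0 : 0 < p) (ha : 0 < a) (hb : 0 < b)
    (hc : IsCoprime a b) (h : a * b = p * y ^ 2) :
    ∃ u v : ℤ, (a = u ^ 2 ∧ b = p * v ^ 2) ∨ (a = p * u ^ 2 ∧ b = v ^ 2) := by
  have hpd : p ∣ a * b := Dvd.intro _ h.symm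
  have key : ∀ a b : ℤ, 0 < a → 0 < b → IsCoprime a b → a * b = p * y ^ 2 → p ∣ b →
      ∃ u v : ℤ, a = u ^ 2 ∧ b = p * v ^ 2 := by
    rintro a b ha hb hc h ⟨k, rfl⟩
    have hk : 0 < k := by
      rcases le_or_gt k 0 with hk | hk
      · nlinarith
      · exact hk
    have h2 : a * k = y ^ 2 := by
      have : p * (a * k) = p * y ^ 2 := by rw [← h]; ring
      exact mul_left_cancel₀ hp0.ne' this
    have hc2 : IsCoprime a k := hc.of_mul_right_right
    obtain ⟨u, hu⟩ := Int.sq_of_isCoprime hc2 h2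
    have h3 : k * a = y ^ 2 := by rw [mul_comm]; exact h2
    obtain ⟨v, hv⟩ := Int.sq_of_isCoprime hc2.symm h3
    refine ⟨u, v, ?_, ?_⟩
    · rcases hu with hu | hu
      · exact hu
      · nlinarith [sq_nonneg u]
    · rcases hv with hv | hv
      · rw [hv]
      · nlinarith [sq_nonneg v]
  rcases hp.dvd_or_dvd hpd with h1 | h1
  · obtain ⟨u, v, h2, h3⟩ := key b a hb ha hc.symm (by rw [mul_comm]; exact h) h1
    exact ⟨v, u, Or.inr ⟨h3, h2⟩⟩
  · obtain ⟨u, v, h2, h3⟩ := key a b ha hb hc h h1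
    exact ⟨u, v, Or.inl ⟨h2, h3⟩⟩

/-- one of the equations `x ^ 2 - p y ^ 2 = -1, 2, -2` is solvable for an odd prime `p` -/
theorem pell_three (p : ℕ) (hp : p.Prime) (h2 : p ≠ 2) :
    ∃ x y : ℤ, x ^ 2 - p * y ^ 2 = -1 ∨ x ^ 2 - p * y ^ 2 = 2 ∨ x ^ 2 - p * y ^ 2 = -2 := by
  have hpp : Prime (p : ℤ) := Nat.prime_iff_prime_int.1 hp
  have hp0 : (0 : ℤ) < p := by exact_mod_cast hp.pos
  have hodd : Odd (p : ℤ) := by exact_mod_cast hp.odd_of_ne_two h2
  have hns : ¬ IsSquare (p : ℤ) := hpp.irreducible.not_isSquare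
  -- a positive solution of the Pell equation with least `y`
  have hex : ∃ n : ℕ, 0 < n ∧ ∃ x : ℤ, 0 < x ∧ x ^ 2 - p * (n : ℤ) ^ 2 = 1 := by
    obtain ⟨x, y, hxy, hy⟩ := Pell.exists_of_not_isSquare hp0 hns
    refine ⟨y.natAbs, Int.natAbs_pos.2 hy, |x|, ?_, ?_⟩
    · apply abs_pos.2
      rintro rfl
      nlinarith [sq_nonneg y]
    · rw [sq_abs, Int.natCast_natAbs, sq_abs]; exact hxy
  classical
  obtain ⟨hn0, x, hx0, hx⟩ := Nat.find_spec hex
  have hmin : ∀ m : ℕ, 0 < m → (∃ x : ℤ, x ^ 2 - p * (m : ℤ) ^ 2 = 1) → Nat.find hex ≤ m := by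
    rintro m hm ⟨x, hx⟩
    apply Nat.find_min' hex
    refine ⟨hm, |x|, ?_, by rw [sq_abs]; exact hx⟩
    apply abs_pos.2
    rintro rfl
    nlinarith [sq_nonneg (m : ℤ)]
  set n := Nat.find hex with hn
  have hn1 : (1 : ℤ) ≤ n := by exact_mod_cast hn0
  have hx1 : 1 < x := by
    by_contra hc
    have : x = 1 := by omega
    subst this
    nlinarith [sq_nonneg (n : ℤ), mul_pos hp0 (show (0 : ℤ) < (n : ℤ) ^ 2 by positivity)]
  rcases Int.even_or_odd x with ⟨t, ht⟩ | ⟨t, ht⟩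
  · -- `x` even: `x - 1`, `x + 1` are coprime
    have hc : IsCoprime (x - 1) (x + 1) := ⟨t, 1 - t, by rw [ht]; ring⟩
    obtain ⟨u, v, h | h⟩ := split hpp hp0 (a := x - 1) (b := x + 1) (y := n) (by omega) (by omega)
      hc (by linear_combination hx)
    · exact ⟨u, v, Or.inr (Or.inr (by rw [← h.1, ← h.2]; ring))⟩
    · exact ⟨v, u, Or.inr (Or.inl (by rw [← h.1, ← h.2]; ring))⟩
  · -- `x = 2 t + 1`: `t (t + 1) = p (n / 2) ^ 2`
    have h1 : 4 * (t * (t + 1)) = p * (n : ℤ) ^ 2 := by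
      have : x ^ 2 - 1 = p * (n : ℤ) ^ 2 := by linarith
      rw [← this, ht]; ring
    have hne : (2 : ℤ) ∣ n := by
      have h3 : (2 : ℤ) ∣ p * (n : ℤ) ^ 2 := ⟨2 * (t * (t + 1)), by rw [← h1]; ring⟩
      rcases Int.prime_two.dvd_or_dvd h3 with h4 | h4
      · exfalso
        rcases hodd with ⟨k, hk⟩
        omega
      · exact Int.prime_two.dvd_of_dvd_pow h4
    obtain ⟨m, hm⟩ := hne
    have h2 : t * (t + 1) = p * m ^ 2 := by
      have : 4 * (t * (t + 1)) = 4 * (p * m ^ 2) := by rw [h1, hm]; ring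
      linarith
    have ht0 : 0 < t := by omega
    have hc : IsCoprime t (t + 1) := ⟨-1, 1, by ring⟩
    obtain ⟨u, v, h | h⟩ := split hpp hp0 (a := t) (b := t + 1) (y := m) ht0 (by omega) hc h2
    · exact ⟨u, v, Or.inl (by rw [← h.1, ← h.2]; ring)⟩
    · exfalso
      -- a smaller solution
      have h3 : v ^ 2 - p * u ^ 2 = 1 := by rw [← h.1, ← h.2]; ring
      have hu0 : u ≠ 0 := by
        rintro rfl
        have : t = 0 := by rw [h.1]; ring
        omega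
      have h4 := hmin u.natAbs (Int.natAbs_pos.2 hu0)
        ⟨v, by rw [Int.natCast_natAbs, sq_abs]; exact h3⟩
      have h5 : (n : ℤ) ≤ |u| := by
        rw [← Int.natCast_natAbs]; exact_mod_cast h4
      have h6 : (n : ℤ) ^ 2 ≤ u ^ 2 := by
        rw [← sq_abs u]
        exact pow_le_pow_left₀ (by omega) h5 2
      have h7 : (p : ℤ) * (n : ℤ) ^ 2 = 4 * (p * u ^ 2) * (t + 1) := by
        rw [← h1, ← h.1]; ring
      have h8 : 0 < (p : ℤ) * u ^ 2 := by rw [← h.1]; exact ht0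
      nlinarith

lemma sq_mod_four (x : ℤ) : x ^ 2 % 4 = 0 ∨ x ^ 2 % 4 = 1 := by
  have h : x % 4 = 0 ∨ x % 4 = 1 ∨ x % 4 = 2 ∨ x % 4 = 3 := by omega
  rcases h with h | h | h | h <;> simp [pow_two, Int.mul_emod, h]

/-- the negative Pell equation -/
theorem pell_neg (p : ℕ) (hp : p.Prime) (h4 : p = 2 ∨ p % 4 = 1) :
    ∃ x y : ℤ, x ^ 2 - p * y ^ 2 = -1 := by
  rcases h4 with rfl | h4
  · exact ⟨1, 1, by norm_num⟩
  · obtain ⟨x, y, h | h | h⟩ := pell_three p hp (by rintro rfl; norm_num at h4)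
    · exact ⟨x, y, h⟩
    all_goals
      exfalso
      have hp4 : (p : ℤ) % 4 = 1 := by omega
      have h5 : (p : ℤ) * y ^ 2 % 4 = y ^ 2 % 4 := by
        rw [Int.mul_emod, hp4, one_mul, Int.emod_emod_of_dvd _ (dvd_refl _)]
      rcases sq_mod_four x with h3 | h3 <;> rcases sq_mod_four y with h6 | h6 <;> omega

/-- `x ^ 2 - p y ^ 2 = ± 2` for `p % 4 = 3` -/
theorem pell_two (p : ℕ) (hp : p.Prime) (h4 : p % 4 = 3) :
    ∃ x y : ℤ, x ^ 2 - p * y ^ 2 = 2 ∨ x ^ 2 - p * y ^ 2 = -2 := by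
  obtain ⟨x, y, h | h⟩ := pell_three p hp (by rintro rfl; norm_num at h4)
  · exfalso
    have := Fact.mk hp
    have hz : (x : ZMod p) ^ 2 = -1 := by
      have : ((x ^ 2 - p * y ^ 2 : ℤ) : ZMod p) = ((-1 : ℤ) : ZMod p) := by rw [h]
      push_cast at this
      rw [ZMod.natCast_self, zero_mul, sub_zero] at this
      exact this
    have hsq : IsSquare (-1 : ZMod p) := ⟨x, by rw [← hz]; ring⟩
    exact (ZMod.exists_sq_eq_neg_one_iff.1 hsq) h4
  · exact ⟨x, y, h⟩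

/-- `a² + b² = p c²` has only the trivial rational solutions with `b = 0`, if `p % 4 = 3` -/
theorem rat_sum (p : ℕ) (hp : p.Prime) (h4 : p % 4 = 3) (a b c : ℚ) (h : a ^ 2 + b ^ 2 = p * c ^ 2) :
    b = 0 := by
  by_contra hb
  have hc : c ≠ 0 := by
    rintro rfl
    have : a ^ 2 + b ^ 2 = 0 := by rw [h]; ring
    have h2 : 0 < b ^ 2 := by positivity
    nlinarith [sq_nonneg a]
  set D : ℕ := a.den * b.den * c.den with hD
  have hD0 : D ≠ 0 := by
    rw [hD]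
    exact mul_ne_zero (mul_ne_zero a.den_nz b.den_nz) c.den_nz
  have key : ∀ x : ℚ, x.den ∣ D → ∃ m : ℕ, (m : ℚ) ^ 2 = (x * D) ^ 2 := by
    intro x hx
    obtain ⟨k, hk⟩ := hx
    refine ⟨(x.num * k).natAbs, ?_⟩
    have h1 : ((x.num * k : ℤ) : ℚ) = x * D := by
      rw [hk]
      push_cast
      have := Rat.mul_den_eq_num x
      rw [← mul_assoc, this]
    rw [← h1]
    have : (((x.num * k).natAbs : ℕ) : ℚ) = |((x.num * k : ℤ) : ℚ)| := by
      rw [Nat.cast_natAbs, Int.cast_abs]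
    rw [this, sq_abs]
  obtain ⟨A, hA⟩ := key a ⟨b.den * c.den, by rw [hD]; ring⟩
  obtain ⟨B, hB⟩ := key b ⟨a.den * c.den, by rw [hD]; ring⟩
  obtain ⟨C, hC⟩ := key c ⟨a.den * b.den, by rw [hD]; ring⟩
  have h1 : p * C ^ 2 = A ^ 2 + B ^ 2 := by
    have : (p : ℚ) * (C : ℚ) ^ 2 = (A : ℚ) ^ 2 + (B : ℚ) ^ 2 := by
      rw [hA, hB, hC]
      linear_combination (-(D : ℚ) ^ 2) * h
    exact_mod_cast this
  have hC0 : C ≠ 0 := by
    rintro rfl
    have h5 : (c * D) ^ 2 = 0 := by rw [← hC]; norm_num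
    have h6 : c * D = 0 := by simpa using h5
    rcases mul_eq_zero.1 h6 with h7 | h7
    · exact hc h7
    · exact hD0 (by exact_mod_cast h7)
  have h3 := (Nat.eq_sq_add_sq_iff (n := p * C ^ 2)).1 ⟨A, B, h1⟩ p
    (Nat.mem_primeFactors.2 ⟨hp, Dvd.intro _ rfl, mul_ne_zero hp.ne_zero (pow_ne_zero 2 hC0)⟩) h4
  have := Fact.mk hp
  rw [padicValNat.mul hp.ne_zero (pow_ne_zero 2 hC0), padicValNat_self, padicValNat.pow] at h3
  rcases h3 with ⟨k, hk⟩
  omega

end Pool.Agent.J4H19.GP
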