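import Pool.Agent.J4H78.GP.Stm
import Pool.Agent.H471R2.Bq.Basic
import Pool.Agent.J4H19.GP.Odd0

/-!
# Project GP, part ODD: the class number of `ℚ(√p)` is odd
-/

set_option autoImplicit false

open NumberField Ideal Pool.Agent.H471R2 Pool.Agent.J4H78.GP

namespace Pool.Agent.J4H19.GP

variable {K : Type} [Field K] [NumberField K]

/-- the automorphism and the square root of `p` -/
structure Dat (p : ℕ) (K : Type) [Field K] [NumberField K] where
  σ : K ≃ₐ[ℚ] K
  s : 𝓞 K
  gal : IsGalois ℚ K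
  hs : s ^ 2 = (p : 𝓞 K)
  hσs : ra σ s = -s
  all : ∀ τ : K ≃ₐ[ℚ] K, τ = 1 ∨ τ = σ
  hne : (1 : K ≃ₐ[ℚ] K) ≠ σ
  deg : Module.finrank ℚ K = 2

lemma not_rat_sq {p : ℕ} (hp : p.Prime) (q : ℚ) : q ^ 2 ≠ (p : ℚ) := by
  intro h
  have h1 : Irrational (√(p : ℕ)) := Nat.Prime.irrational_sqrt hp
  apply h1
  refine ⟨|q|, ?_⟩
  have h2 : ((|q| : ℚ) : ℝ) ^ 2 = p := by
    have : (|q| : ℚ) ^ 2 = p := by rw [sq_abs, h]
    exact_mod_cast this
  have h3 : (0 : ℝ) ≤ ((|q| : ℚ) : ℝ) := by exact_mod_cast abs_nonneg q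
  symm
  rw [Real.sqrt_eq_iff_mul_self_eq (by positivity) h3]
  push_cast at h2 ⊢
  linarith

lemma exists_dat {p : ℕ} (hp : p.Prime) (h : QD p K) : Nonempty (Dat p K) := by
  have : Algebra.IsQuadraticExtension ℚ K := { finrank_eq_two' := h.deg }
  have hgal : IsGalois ℚ K := inferInstance
  have hcard : Fintype.card (K ≃ₐ[ℚ] K) = 2 := by
    rw [← Nat.card_eq_fintype_card, IsGalois.card_aut_eq_finrank, h.deg]
  have : Nontrivial (K ≃ₐ[ℚ] K) := Fintype.one_lt_card_iff_nontrivial.1 (by omega)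
  obtain ⟨σ, hσ⟩ := exists_ne (1 : K ≃ₐ[ℚ] K)
  have hall : ∀ τ : K ≃ₐ[ℚ] K, τ = 1 ∨ τ = σ := by
    classical
    have huniv : ({1, σ} : Finset (K ≃ₐ[ℚ] K)) = Finset.univ := by
      apply Finset.eq_univ_of_card
      rw [Finset.card_pair hσ.symm, hcard]
    intro τ
    have : τ ∈ ({1, σ} : Finset (K ≃ₐ[ℚ] K)) := by rw [huniv]; exact Finset.mem_univ _
    rwa [Finset.mem_insert, Finset.mem_singleton] at this
  obtain ⟨s, hs⟩ := h.root
  have hint : IsIntegral ℤ s := by
    apply IsIntegral.of_pow (n := 2) (by norm_num)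
    rw [hs]
    have := isIntegral_algebraMap (R := ℤ) (A := K) (x := (p : ℤ))
    simpa using this
  have h2 : σ s = -s := by
    have h3 : (σ s) ^ 2 = s ^ 2 := by
      rw [← map_pow, hs, map_natCast]
    rcases sq_eq_sq_iff_eq_or_eq_neg.1 h3 with h4 | h4
    · exfalso
      have h5 : s ∈ Set.range (algebraMap ℚ K) := by
        rw [IsGalois.mem_range_algebraMap_iff_fixed]
        intro τ
        rcases hall τ with rfl | rfl
        · rfl
        · exact h4
      obtain ⟨q, hq⟩ := h5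
      apply not_rat_sq hp q
      have : algebraMap ℚ K (q ^ 2) = algebraMap ℚ K p := by
        rw [map_pow, hq, hs, map_natCast]
      exact (algebraMap ℚ K).injective this
    · exact h4
  obtain ⟨s', hs'⟩ : ∃ s' : 𝓞 K, (s' : K) = s := ⟨⟨s, hint⟩, rfl⟩
  refine ⟨⟨σ, s', hgal, ?_, ?_, hall, hσ.symm, h.deg⟩⟩
  · apply RingOfIntegers.ext
    have : ((s' ^ 2 : 𝓞 K) : K) = (s' : K) ^ 2 := by simp
    rw [this, hs', hs]
    simp
  · apply RingOfIntegers.ext
    rw [ra_coe]
    have : ((-s' : 𝓞 K) : K) = -(s' : K) := by simp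
    rw [this, hs', h2]

namespace Dat

variable {p : ℕ} (D : Dat p K)

include D in
lemma rr (x : 𝓞 K) : ra D.σ (ra D.σ x) = x := by
  have h : D.σ * D.σ = 1 := by
    rcases D.all (D.σ * D.σ) with h | h
    · exact h
    · exact absurd (mul_left_cancel (a := D.σ) (by rw [mul_one]; exact h)) D.hne.symm
  rw [← ra_mul, h, ra_one]

lemma huniv [DecidableEq (K ≃ₐ[ℚ] K)] : (Finset.univ : Finset (K ≃ₐ[ℚ] K)) = {1, D.σ} := by
  ext τ
  simpa using D.all τ

lemma ii (I : Ideal (𝓞 K)) : ia D.σ (ia D.σ I) = I := by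
  ext x
  simp only [mem_ia]
  constructor
  · rintro ⟨y, ⟨z, hz, rfl⟩, rfl⟩
    rwa [D.rr]
  · intro hx
    exact ⟨ra D.σ x, ⟨x, hx, rfl⟩, D.rr x⟩

lemma mul_conj (I : Ideal (𝓞 K)) : I * ia D.σ I = span {((absNorm I : ℕ) : 𝓞 K)} := by
  classical
  have := D.gal
  rw [← prod_ia I, D.huniv, Finset.prod_pair D.hne, ia_one]

lemma mul_ra (x : 𝓞 K) : x * ra D.σ x = ((Algebra.intNorm ℤ (𝓞 K) x : ℤ) : 𝓞 K) := by
  classical
  have := D.gal
  have h := intNorm_eq_prod x
  rw [D.huniv, Finset.prod_pair D.hne, ra_one] at h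
  rw [← h]
  simp

include D in
lemma absNorm_int (m : ℤ) : absNorm (span {((m : ℤ) : 𝓞 K)}) = m.natAbs ^ 2 := by
  have h1 : span {((m : ℤ) : 𝓞 K)} = span {((m.natAbs : ℕ) : 𝓞 K)} := by
    rcases Int.natAbs_eq m with h | h
    · conv_lhs => rw [h]
      simp
    · have h2 : ((m : ℤ) : 𝓞 K) = -((m.natAbs : ℕ) : 𝓞 K) := by
        conv_lhs => rw [h]
        rw [Int.cast_neg, Int.cast_natCast]
      rw [h2, Ideal.span_singleton_neg]
  rw [h1, absNorm_span_natCast, RingOfIntegers.rank, D.deg]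

/-- an invariant prime ideal is principal, if the elements that generate the different are -/
lemma prime_principal (hp : p.Prime)
    (h : p = 2 ∨ (∃ w : 𝓞 K, w - ra D.σ w = D.s) ∨ ∃ t : 𝓞 K, t * ra D.σ t = 2 ∨ t * ra D.σ t = -2)
    (Q : Ideal (𝓞 K)) (hQ : Q.IsPrime) (hQ0 : Q ≠ ⊥) (hinv : ia D.σ Q = Q) :
    ∃ x : 𝓞 K, Q = span {x} := by
  have hmax : Q.IsMaximal := hQ.isMaximal hQ0
  -- the rational prime below
  obtain ⟨q, hq, hqQ⟩ : ∃ q : ℕ, q.Prime ∧ (q : 𝓞 K) ∈ Q := by
    have h1 : ((absNorm Q : ℕ) : 𝓞 K) ∈ Q := Ideal.absNorm_mem Q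
    have h0 : absNorm Q ≠ 0 := by rwa [Ne, Ideal.absNorm_eq_zero_iff]
    have h2 : ∀ n : ℕ, n ≠ 0 → (n : 𝓞 K) ∈ Q → ∃ q : ℕ, q.Prime ∧ (q : 𝓞 K) ∈ Q := by
      intro n
      induction n using Nat.strong_induction_on with
      | _ n ih =>
        intro hn hnQ
        rcases Nat.lt_or_ge 1 n with h3 | h3
        · obtain ⟨q, hq, k, hk⟩ := Nat.exists_prime_and_dvd (n := n) (by omega)
          rw [hk] at hnQ
          push_cast at hnQ
          rcases hQ.mem_or_mem hnQ with h4 | h4
          · exact ⟨q, hq, h4⟩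
          · have hk0 : k ≠ 0 := by rintro rfl; omega
            refine ih k ?_ hk0 h4
            rw [hk]
            have := hq.two_le
            nlinarith [Nat.pos_of_ne_zero hk0]
        · have : n = 1 := by omega
          rw [this] at hnQ
          exact absurd ((Ideal.eq_top_iff_one Q).2 (by simpa using hnQ)) hQ.ne_top
    exact h2 _ h0 h1
  have hle : span {((q : ℤ) : 𝓞 K)} ≤ Q := by
    rw [Ideal.span_singleton_le_iff_mem]
    simpa using hqQ
  obtain ⟨C, hC⟩ := Ideal.dvd_iff_le.2 hle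
  have hN : q ^ 2 = absNorm Q * absNorm C := by
    have := congrArg absNorm hC
    rw [D.absNorm_int, map_mul] at this
    simpa using this
  have hN1 : absNorm Q ≠ 1 := by
    rw [Ne, Ideal.absNorm_eq_one_iff]
    exact hQ.ne_top
  have hcase : absNorm Q = q ∨ absNorm Q = q ^ 2 := by
    have : absNorm Q ∣ q ^ 2 := ⟨_, hN⟩
    rw [Nat.dvd_prime_pow hq] at this
    obtain ⟨k, hk, hk2⟩ := this
    interval_cases k
    · simp at hk2
      exact absurd (by rw [hk2]; simp) hN1
    · left; simpa using hk2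
    · right; exact hk2
  rcases hcase with hcase | hcase
  · -- ramified
    have hfin : Nat.card (𝓞 K ⧸ Q) = q := by
      rw [← hcase, Ideal.absNorm_apply, Submodule.cardQuot_apply]
    have hfin2 : Finite (𝓞 K ⧸ Q) := Nat.finite_of_card_ne_zero (by rw [hfin]; exact hq.ne_zero)
    have := Fintype.ofFinite (𝓞 K ⧸ Q)
    have hsurj : ∀ x : 𝓞 K, ∃ r : ℤ, x - (r : 𝓞 K) ∈ Q := by
      intro x
      have e := ZMod.ringEquivOfPrime (𝓞 K ⧸ Q) hq (by rw [← Nat.card_eq_fintype_card, hfin])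
      obtain ⟨z, hz⟩ := e.surjective (Ideal.Quotient.mk Q x)
      obtain ⟨r, hr⟩ := ZMod.intCast_surjective z
      refine ⟨r, ?_⟩
      rw [← Ideal.Quotient.eq, ← hz, ← hr, map_intCast, map_intCast]
    have hdiff : ∀ x : 𝓞 K, x - ra D.σ x ∈ Q := by
      intro x
      obtain ⟨r, hr⟩ := hsurj x
      have h2 : ra D.σ (x - r) ∈ ia D.σ Q := ra_mem_ia D.σ hr
      rw [hinv, map_sub, map_intCast] at h2
      have := Q.sub_mem hr h2
      simpa using this
    -- prime elements
    have hel : ∀ t : 𝓞 K, (absNorm (span {t})).Prime → t ∈ Q → Q = span {t} := by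
      intro t ht htQ
      have hP : (span {t}).IsPrime := Ideal.isPrime_of_irreducible_absNorm ht
      have hP0 : span {t} ≠ ⊥ := by
        intro h0
        rw [h0, Ideal.absNorm_bot] at ht
        exact Nat.not_prime_zero ht
      have hM : (span {t}).IsMaximal := hP.isMaximal hP0
      exact (hM.eq_of_le hQ.ne_top ((Ideal.span_singleton_le_iff_mem _).2 htQ)).symm
    have hsN : (absNorm (span {D.s})).Prime := by
      have h3 : absNorm (span {D.s}) ^ 2 = p ^ 2 := by
        rw [← map_pow, Ideal.span_singleton_pow, D.hs]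
        have := D.absNorm_int (p : ℤ)
        simpa using this
      rw [Nat.pow_left_injective (by norm_num : 2 ≠ 0) h3]
      exact hp
    have hs2 : 2 * D.s ∈ Q := by
      have := hdiff D.s
      rw [D.hσs] at this
      have e : D.s - -D.s = 2 * D.s := by ring
      rwa [e] at this
    rcases h with h | ⟨w, hw⟩ | ⟨t, ht⟩
    · refine ⟨D.s, hel _ hsN ?_⟩
      have h5 : D.s ^ 3 ∈ Q := by
        have : D.s ^ 3 = 2 * D.s := by
          have h6 := D.hs
          have h7 : (p : 𝓞 K) = 2 := by exact_mod_cast congrArg (Nat.cast : ℕ → 𝓞 K) h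
          rw [h7] at h6
          linear_combination D.s * h6
        rw [this]; exact hs2
      exact hQ.mem_of_pow_mem 3 h5
    · refine ⟨D.s, hel _ hsN ?_⟩
      rw [← hw]
      exact hdiff w
    · have htN : absNorm (span {t}) = 2 := by
        have h7 : absNorm (span {t}) * absNorm (span {ra D.σ t}) = 2 ^ 2 := by
          rw [← map_mul, Ideal.span_singleton_mul_span_singleton]
          rcases ht with ht | ht
          · rw [ht]
            have := D.absNorm_int 2
            simpa using this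
          · rw [ht]
            have := D.absNorm_int (-2)
            simpa using this
        rw [← ia_span, absNorm_ia, ← sq] at h7
        exact Nat.pow_left_injective (by norm_num : 2 ≠ 0) h7
      have htN2 : absNorm (span {ra D.σ t}) = 2 := by
        rw [← ia_span, absNorm_ia, htN]
      rcases hQ.mem_or_mem hs2 with h8 | h8
      · have h9 : t * ra D.σ t ∈ Q := by
          rcases ht with ht | ht
          · rw [ht]; exact h8
          · rw [ht]; exact Q.neg_mem h8
        rcases hQ.mem_or_mem h9 with h10 | h10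
        · exact ⟨t, hel t (by rw [htN]; exact Nat.prime_two) h10⟩
        · exact ⟨_, hel _ (by rw [htN2]; exact Nat.prime_two) h10⟩
      · exact ⟨D.s, hel _ hsN h8⟩
  · -- inert
    refine ⟨((q : ℤ) : 𝓞 K), ?_⟩
    rw [hcase] at hN
    have h1 : absNorm C = 1 := by
      have h2 : q ^ 2 * 1 = q ^ 2 * absNorm C := by rw [mul_one]; exact hN
      exact (Nat.eq_of_mul_eq_mul_left (by have := hq.pos; positivity) h2).symm
    rw [Ideal.absNorm_eq_one_iff] at h1
    rw [hC, h1, mul_top]

/-- every invariant ideal is principal -/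
lemma inv_principal
    (hprime : ∀ Q : Ideal (𝓞 K), Q.IsPrime → Q ≠ ⊥ → ia D.σ Q = Q → ∃ x : 𝓞 K, Q = span {x})
    (B : Ideal (𝓞 K)) (hB : B ≠ ⊥) (hinv : ia D.σ B = B) : ∃ x : 𝓞 K, B = span {x} := by
  have key : ∀ n : ℕ, ∀ B : Ideal (𝓞 K), absNorm B = n → B ≠ ⊥ → ia D.σ B = B →
      ∃ x : 𝓞 K, B = span {x} := by
    intro n
    induction n using Nat.strong_induction_on with
    | _ n ih =>
      intro B hn hB hinv
      by_cases htop : B = ⊤
      · exact ⟨1, by rw [htop, Ideal.span_singleton_one]⟩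
      obtain ⟨Q, hM, hle⟩ := Ideal.exists_le_maximal B htop
      have hQ : Q.IsPrime := hM.isPrime
      have hQ0 : Q ≠ ⊥ := fun h0 => hB (by rw [h0] at hle; exact le_bot_iff.1 hle)
      have hN0 : ∀ I : Ideal (𝓞 K), I ≠ ⊥ → 0 < absNorm I := fun I hI =>
        Nat.pos_of_ne_zero (by rwa [Ne, Ideal.absNorm_eq_zero_iff])
      have hQN : 1 < absNorm Q := by
        have h1 : absNorm Q ≠ 1 := by
          rw [Ne, Ideal.absNorm_eq_one_iff]
          exact hQ.ne_top
        have := hN0 Q hQ0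
        omega
      obtain ⟨C, hC⟩ := Ideal.dvd_iff_le.2 hle
      have hC0 : C ≠ ⊥ := fun h0 => hB (by rw [hC, h0]; simp)
      by_cases hσ : ia D.σ Q = Q
      · have hCinv : ia D.σ C = C := by
          have h1 : Q * ia D.σ C = Q * C := by
            rw [← hC, ← hinv]
            conv_rhs => rw [hC]
            rw [ia_mul, hσ]
          exact mul_left_cancel₀ hQ0 h1
        have hlt : absNorm C < n := by
          rw [← hn, hC, map_mul]
          have := hN0 C hC0
          nlinarith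
        obtain ⟨y, hy⟩ := ih _ hlt C rfl hC0 hCinv
        obtain ⟨x, hx⟩ := hprime Q hQ hQ0 hσ
        exact ⟨x * y, by rw [hC, hx, hy, Ideal.span_singleton_mul_span_singleton]⟩
      · have hσQ : (ia D.σ Q).IsPrime := by
          unfold ia
          exact Ideal.map_isPrime_of_equiv (ra D.σ)
        have hσQ0 : ia D.σ Q ≠ ⊥ := ia_ne_bot D.σ hQ0
        have hM2 : (ia D.σ Q).IsMaximal := hσQ.isMaximal hσQ0
        have h1 : ia D.σ Q * ia D.σ C = Q * C := by
          rw [← ia_mul, ← hC, hinv]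
        have h2 : Q * C ≤ ia D.σ Q := by
          rw [← h1]
          exact Ideal.mul_le_left
        have h3 : C ≤ ia D.σ Q := by
          rcases (hσQ.mul_le).1 h2 with h4 | h4
          · exact absurd (hM.eq_of_le hσQ.ne_top h4).symm hσ
          · exact h4
        obtain ⟨E, hE⟩ := Ideal.dvd_iff_le.2 h3
        have hB2 : B = span {((absNorm Q : ℕ) : 𝓞 K)} * E := by
          rw [hC, hE, ← mul_assoc, D.mul_conj]
        have hE0 : E ≠ ⊥ := fun h0 => hB (by rw [hB2, h0]; simp)
        have hNQ0 : ((absNorm Q : ℕ) : 𝓞 K) ≠ 0 := by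
          have := hN0 Q hQ0
          exact_mod_cast this.ne'
        have hEinv : ia D.σ E = E := by
          have h5 : span {((absNorm Q : ℕ) : 𝓞 K)} * ia D.σ E =
              span {((absNorm Q : ℕ) : 𝓞 K)} * E := by
            rw [← hB2, ← hinv]
            conv_rhs => rw [hB2]
            rw [ia_mul, ia_span, map_natCast]
          exact mul_left_cancel₀ (span_ne_bot hNQ0) h5
        have hlt : absNorm E < n := by
          rw [← hn, hB2, map_mul]
          have h6 := hN0 E hE0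
          have h7 : 1 < absNorm (span {((absNorm Q : ℕ) : 𝓞 K)}) := by
            rw [absNorm_span_natCast, RingOfIntegers.rank, D.deg]
            nlinarith
          nlinarith
        obtain ⟨y, hy⟩ := ih _ hlt E rfl hE0 hEinv
        exact ⟨((absNorm Q : ℕ) : 𝓞 K) * y, by
          rw [hB2, hy, Ideal.span_singleton_mul_span_singleton]⟩
  exact key _ B rfl hB hinv

/-- trace and difference: `4 x σ(x) = t² - p u²` with rational `t`, `u` -/
lemma four_norm (hp : p.Prime) (x : 𝓞 K) (m : ℤ) (h : x * ra D.σ x = (m : 𝓞 K)) :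
    ∃ t u : ℚ, 4 * (m : ℚ) = t ^ 2 - p * u ^ 2 := by
  have := D.gal
  have hs0 : (D.s : K) ≠ 0 := by
    intro h0
    have h1 : ((D.s ^ 2 : 𝓞 K) : K) = (D.s : K) ^ 2 := by simp
    rw [D.hs, h0] at h1
    have h2 : ((p : 𝓞 K) : K) = (p : K) := by simp
    rw [h2] at h1
    have h3 : (p : K) = 0 := by rw [h1]; ring
    exact hp.ne_zero (by exact_mod_cast h3)
  have hσσ : D.σ (D.σ (x : K)) = x := by
    have := congrArg (fun y : 𝓞 K => (y : K)) (D.rr x)
    simpa using this
  have hσs : D.σ (D.s : K) = -D.s := by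
    have := congrArg (fun y : 𝓞 K => (y : K)) D.hσs
    simpa using this
  have h1 : (x : K) + D.σ x ∈ Set.range (algebraMap ℚ K) := by
    rw [IsGalois.mem_range_algebraMap_iff_fixed]
    intro τ
    rcases D.all τ with rfl | rfl
    · rfl
    · rw [map_add, hσσ, add_comm]
  have h2 : ((x : K) - D.σ x) / D.s ∈ Set.range (algebraMap ℚ K) := by
    rw [IsGalois.mem_range_algebraMap_iff_fixed]
    intro τ
    rcases D.all τ with rfl | rfl
    · rfl
    · rw [map_div₀, map_sub, hσσ, hσs]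
      field_simp
      ring
  obtain ⟨t, ht⟩ := h1
  obtain ⟨u, hu⟩ := h2
  refine ⟨t, u, ?_⟩
  have h3 : (x : K) * D.σ x = (m : K) := by
    have := congrArg (fun y : 𝓞 K => (y : K)) h
    simpa using this
  have h4 : (D.s : K) ^ 2 = p := by
    have := congrArg (fun y : 𝓞 K => (y : K)) D.hs
    simpa using this
  have h5 : (x : K) - D.σ x = algebraMap ℚ K u * D.s := by
    rw [hu]
    field_simp
  have h6 : algebraMap ℚ K (4 * (m : ℚ)) = algebraMap ℚ K (t ^ 2 - p * u ^ 2) := by
    simp only [map_mul, map_sub, map_pow, map_natCast, map_intCast, map_ofNat]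
    rw [← h3, ← h4, ht]
    have h7 : (D.s : K) ^ 2 * (algebraMap ℚ K u) ^ 2 = ((x : K) - D.σ x) ^ 2 := by
      rw [h5]; ring
    rw [h7]
    ring
  exact (algebraMap ℚ K).injective h6

end Dat

/-- **ODD** -/
theorem t_ODD : S_ODD := by
  intro p K _ _ hp hQD
  obtain ⟨D⟩ := exists_dat hp hQD
  have hsub : Nat.card (ClassGroup (𝓞 K)) ≠ 0 := by
    rw [Nat.card_eq_fintype_card]
    exact Fintype.card_ne_zero
  -- a unit of norm -1, or no element with negative square norm
  have hunit : (∃ ε : 𝓞 K, ε * ra D.σ ε = -1) ∨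
      ∀ (x : 𝓞 K) (n : ℤ), n ≠ 0 → x * ra D.σ x ≠ ((-(n ^ 2) : ℤ) : 𝓞 K) := by
    have h4 : (p = 2 ∨ p % 4 = 1) ∨ p % 4 = 3 := by
      rcases hp.eq_two_or_odd with h | h
      · exact Or.inl (Or.inl h)
      · omega
    rcases h4 with h4 | h4
    · left
      obtain ⟨a, b, hab⟩ := pell_neg p hp h4
      refine ⟨(a : 𝓞 K) + b * D.s, ?_⟩
      rw [map_add, map_mul, map_intCast, map_intCast, D.hσs]
      have h5 : ((a ^ 2 - p * b ^ 2 : ℤ) : 𝓞 K) = ((-1 : ℤ) : 𝓞 K) := by rw [hab]
      push_cast at h5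
      rw [← h5, ← D.hs]
      ring
    · right
      intro x n hn h
      obtain ⟨t, u, htu⟩ := D.four_norm hp x _ h
      have := rat_sum p hp h4 t (2 * n) u (by push_cast at htu; linarith)
      have h6 : (n : ℚ) = 0 := by linarith
      exact hn (by exact_mod_cast h6)
  -- the ramified primes
  have hram : p = 2 ∨ (∃ w : 𝓞 K, w - ra D.σ w = D.s) ∨
      ∃ t : 𝓞 K, t * ra D.σ t = 2 ∨ t * ra D.σ t = -2 := by
    have h4 : p = 2 ∨ p % 4 = 1 ∨ p % 4 = 3 := by
      rcases hp.eq_two_or_odd with h | h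
      · exact Or.inl h
      · omega
    rcases h4 with h4 | h4 | h4
    · exact Or.inl h4
    · right; left
      have hs2 : (D.s : K) ^ 2 = p := by
        have := congrArg (fun y : 𝓞 K => (y : K)) D.hs
        simpa using this
      have hint : IsIntegral ℤ ((1 + (D.s : K)) / 2) := by
        obtain ⟨k, hk⟩ : ∃ k : ℕ, p = 4 * k + 1 := ⟨p / 4, by omega⟩
        refine ⟨Polynomial.X ^ 2 - Polynomial.X - Polynomial.C (k : ℤ), ?_, ?_⟩
        · monicity!
        · have hkK : (p : K) = 4 * k + 1 := by rw [hk]; push_cast; ring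
          simp only [Polynomial.eval₂_sub, Polynomial.eval₂_pow, Polynomial.eval₂_X,
            Polynomial.eval₂_C]
          have : (algebraMap ℤ K) (k : ℤ) = (k : K) := by simp
          rw [this]
          rw [hkK] at hs2
          linear_combination (1 / 4 : K) * hs2
      obtain ⟨w, hw⟩ : ∃ w : 𝓞 K, (w : K) = (1 + (D.s : K)) / 2 := ⟨⟨_, hint⟩, rfl⟩
      refine ⟨w, ?_⟩
      apply RingOfIntegers.ext
      have hσs : D.σ (D.s : K) = -D.s := by
        have := congrArg (fun y : 𝓞 K => (y : K)) D.hσs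
        simpa using this
      have h5 : ((w - ra D.σ w : 𝓞 K) : K) = (w : K) - D.σ (w : K) := by simp
      rw [h5, hw, map_div₀, map_add, map_one, hσs, map_ofNat]
      ring
    · right; right
      obtain ⟨a, b, hab⟩ := pell_two p hp h4
      refine ⟨(a : 𝓞 K) + b * D.s, ?_⟩
      rw [map_add, map_mul, map_intCast, map_intCast, D.hσs]
      have h5 : ((a : 𝓞 K) + b * D.s) * (a + b * -D.s) = ((a ^ 2 - p * b ^ 2 : ℤ) : 𝓞 K) := by
        push_cast
        rw [← D.hs]
        ring
      rw [h5]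
      rcases hab with hab | hab
      · left; rw [hab]; norm_num
      · right; rw [hab]; norm_num
  have hprime := fun Q hQ hQ0 hinv => D.prime_principal hp hram Q hQ hQ0 hinv
  rw [← Nat.not_even_iff_odd]
  intro heven
  have := Fact.mk Nat.prime_two
  obtain ⟨c, hc⟩ := exists_prime_orderOf_dvd_card' (G := ClassGroup (𝓞 K)) 2 heven.two_dvd
  have hc1 : c ≠ 1 := by
    rintro rfl
    rw [orderOf_one] at hc
    norm_num at hc
  have hc2 : c ^ 2 = 1 := by rw [← hc]; exact pow_orderOf_eq_one c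
  apply hc1
  obtain ⟨A, hA, rfl⟩ := cl_surj c
  rw [sq, ← cl_mul, cl_eq_one_iff] at hc2
  obtain ⟨g, hg0, hg⟩ := hc2
  set n : ℕ := absNorm A with hn
  have hn0 : n ≠ 0 := by rwa [hn, Ne, Ideal.absNorm_eq_zero_iff]
  have hconj := D.mul_conj A
  -- the norm of `g` is `± n²`
  have hNg : (Algebra.intNorm ℤ (𝓞 K) g).natAbs = n ^ 2 := by
    have h1 : span {g} * ia D.σ (span {g}) = span {((Algebra.intNorm ℤ (𝓞 K) g : ℤ) : 𝓞 K)} := by
      rw [ia_span, Ideal.span_singleton_mul_span_singleton, D.mul_ra]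
    have h2 := congrArg absNorm h1
    rw [map_mul, absNorm_ia, ← hg, D.absNorm_int, map_mul, ← hn] at h2
    have h3 : (n ^ 2) ^ 2 = (Algebra.intNorm ℤ (𝓞 K) g).natAbs ^ 2 := by
      rw [← h2]; ring
    exact (Nat.pow_left_injective (by norm_num : 2 ≠ 0) h3).symm
  -- we may assume that the norm is `n²`
  obtain ⟨γ, hγA, hγN⟩ : ∃ γ : 𝓞 K, A * A = span {γ} ∧ γ * ra D.σ γ = ((n : ℕ) : 𝓞 K) ^ 2 := by
    have hm := D.mul_ra g
    rcases Int.natAbs_eq (Algebra.intNorm ℤ (𝓞 K) g) with h1 | h1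
    · refine ⟨g, hg, ?_⟩
      rw [hm, h1, hNg]
      push_cast
      ring
    · rw [hNg] at h1
      rcases hunit with ⟨ε, hε⟩ | hno
      · refine ⟨g * ε, ?_, ?_⟩
        · have hεu : IsUnit ε := by
            refine isUnit_iff_exists_inv.2 ⟨-(ra D.σ ε), ?_⟩
            rw [mul_neg, hε, neg_neg]
          rw [hg, Ideal.span_singleton_mul_right_unit hεu]
        · rw [map_mul]
          calc g * ε * (ra D.σ g * ra D.σ ε) = (g * ra D.σ g) * (ε * ra D.σ ε) := by ring
            _ = _ := by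
              rw [hm, h1, hε]
              push_cast
              ring
      · exfalso
        refine hno g n (by exact_mod_cast hn0) ?_
        rw [hm, h1]
        push_cast
        rfl
  have hnK : ((n : ℕ) : 𝓞 K) ≠ 0 := by exact_mod_cast hn0
  by_cases hβ : γ + (n : 𝓞 K) = 0
  · have h1 : γ = -(n : 𝓞 K) := eq_neg_of_add_eq_zero_left hβ
    have h2 : A * ia D.σ A = A * A := by
      rw [hconj, hγA, h1, Ideal.span_singleton_neg]
    have h3 : ia D.σ A = A := mul_left_cancel₀ hA h2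
    obtain ⟨x, hx⟩ := D.inv_principal hprime A hA h3
    rw [cl_eq_one_iff]
    refine ⟨x, ?_, hx⟩
    rintro rfl
    exact hA (by rw [hx]; simp)
  · set β := γ + (n : 𝓞 K) with hβd
    have hσβ : ra D.σ β ≠ 0 := by
      intro h0
      exact hβ ((map_eq_zero_iff (ra D.σ) (ra D.σ).injective).1 h0)
    have h1 : γ * ra D.σ β = (n : 𝓞 K) * β := by
      rw [hβd, map_add, map_natCast, mul_add, hγN]
      ring
    have h2 : A * span {ra D.σ β} = ia D.σ A * span {β} := by
      have h3 : A * (A * span {ra D.σ β}) = A * (ia D.σ A * span {β}) := by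
        rw [← mul_assoc, hγA, ← mul_assoc, hconj, Ideal.span_singleton_mul_span_singleton,
          Ideal.span_singleton_mul_span_singleton, h1]
      exact mul_left_cancel₀ hA h3
    have hB0 : A * span {ra D.σ β} ≠ ⊥ := mul_ne_zero hA (span_ne_bot hσβ)
    have hBinv : ia D.σ (A * span {ra D.σ β}) = A * span {ra D.σ β} := by
      rw [ia_mul, ia_span, D.rr, h2]
    obtain ⟨x, hx⟩ := D.inv_principal hprime _ hB0 hBinv
    have h4 : cl (A * span {ra D.σ β}) hB0 = 1 := by
      rw [cl_eq_one_iff]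
      refine ⟨x, ?_, hx⟩
      rintro rfl
      exact hB0 (by rw [hx]; simp)
    rw [cl_mul A _ hA (span_ne_bot hσβ), cl_span hσβ, mul_one] at h4
    exact h4

end Pool.Agent.J4H19.GP
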