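import Pool.Agent.J4H78.GP.Stm

/-!
# Project GP: the parts EX, SQF, PSD, LS (large sieve)
-/

set_option autoImplicit false

open Complex

namespace Pool.Agent.J4H19.GP

open Pool.Agent.J4H78.GP

/-- existence of the coefficients -/
noncomputable def cf (G : ℕ → ℂ) : ℕ → ℂ
  | n => if _h : n = 0 then 0 else if n = 1 then 1 else
    (∑ d ∈ (n.divisors.erase 1).attach,
      (ArithmeticFunction.vonMangoldt (d : ℕ) : ℂ) * G d * cf G (n / d)) / (Real.log n : ℂ)
decreasing_by
  have hd := d.2
  rw [Finset.mem_erase, Nat.mem_divisors] at hd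
  have h1 : 1 < (d : ℕ) := by
    have : (d : ℕ) ≠ 0 := fun h0 => by rw [h0] at hd; exact hd.2.2 (Nat.eq_zero_of_zero_dvd hd.2.1)
    omega
  exact Nat.div_lt_self (Nat.pos_of_ne_zero _h) h1

lemma sum_erase (G a : ℕ → ℂ) (n : ℕ) (hn : n ≠ 0) :
    ∑ d ∈ n.divisors, (ArithmeticFunction.vonMangoldt d : ℂ) * G d * a (n / d) =
      ∑ d ∈ n.divisors.erase 1, (ArithmeticFunction.vonMangoldt d : ℂ) * G d * a (n / d) := by
  rw [← Finset.add_sum_erase _ _ (Nat.one_mem_divisors.2 hn)]
  simp

lemma cf_isCf (G : ℕ → ℂ) : IsCf G (cf G) := by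
  refine ⟨by rw [cf]; simp, by rw [cf]; simp, fun n hn => ?_⟩
  by_cases h1 : n = 1
  · subst h1
    simp
  · have hlog : (Real.log n : ℂ) ≠ 0 := by
      have : 0 < Real.log n := Real.log_pos (by exact_mod_cast (by omega : 1 < n))
      exact_mod_cast this.ne'
    rw [sum_erase G _ n (by omega)]
    conv_lhs => rw [cf]
    rw [dif_neg (by omega), if_neg h1, div_mul_cancel₀ _ hlog]
    exact Finset.sum_attach (n.divisors.erase 1) (fun d : ℕ => (ArithmeticFunction.vonMangoldt d : ℂ) * G d * cf G (n / d))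

lemma log_ne {n : ℕ} (hn : 1 < n) : (Real.log n : ℂ) ≠ 0 := by
  have : 0 < Real.log n := Real.log_pos (by exact_mod_cast hn)
  exact_mod_cast this.ne'

lemma div_lt_of {n d : ℕ} (hn : n ≠ 0) (hd : d ∈ n.divisors.erase 1) : n / d < n ∧ 1 ≤ n / d := by
  rw [Finset.mem_erase, Nat.mem_divisors] at hd
  have h0 : d ≠ 0 := fun h0 => by rw [h0] at hd; exact hd.2.2 (Nat.eq_zero_of_zero_dvd hd.2.1)
  have h1 : 1 < d := by omega
  refine ⟨Nat.div_lt_self (Nat.pos_of_ne_zero hn) h1, ?_⟩
  exact Nat.div_pos (Nat.le_of_dvd (Nat.pos_of_ne_zero hn) hd.2.1) (by omega)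

theorem t_EX : S_EX := by
  intro G
  refine ⟨cf G, cf_isCf G, fun b hb => ?_⟩
  funext n
  induction n using Nat.strong_induction_on with
  | _ n ih =>
    have ha := cf_isCf G
    rcases Nat.lt_or_ge 1 n with hn | hn
    · have e1 := hb.2.2 n (by omega)
      have e2 := ha.2.2 n (by omega)
      rw [sum_erase G _ n (by omega)] at e1 e2
      have e3 : ∑ d ∈ n.divisors.erase 1, (ArithmeticFunction.vonMangoldt d : ℂ) * G d * b (n / d) =
          ∑ d ∈ n.divisors.erase 1, (ArithmeticFunction.vonMangoldt d : ℂ) * G d * cf G (n / d) := by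
        refine Finset.sum_congr rfl fun d hd => ?_
        rw [ih (n / d) (div_lt_of (by omega) hd).1]
      rw [e3, ← e2] at e1
      exact mul_right_cancel₀ (log_ne hn) e1
    · interval_cases n
      · rw [hb.1, ha.1]
      · rw [hb.2.1, ha.2.1]

theorem t_SQF : S_SQF := by
  intro G a ha n
  induction n using Nat.strong_induction_on with
  | _ n ih =>
    intro hsq
    rcases Nat.lt_or_ge 1 n with hn | hn
    · have e1 := ha.2.2 n (by omega)
      have e2 : ∑ d ∈ n.divisors, (ArithmeticFunction.vonMangoldt d : ℂ) * G d * a (n / d) =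
          ∑ q ∈ n.primeFactors, (Real.log q : ℂ) * ∏ q ∈ n.primeFactors, G q := by
        have hsub : n.primeFactors ⊆ n.divisors := fun q hq => by
          rw [Nat.mem_divisors]
          exact ⟨Nat.dvd_of_mem_primeFactors hq, by omega⟩
        rw [← Finset.sum_subset hsub]
        · refine Finset.sum_congr rfl fun q hq => ?_
          have hqp := Nat.prime_of_mem_primeFactors hq
          have hqd := Nat.dvd_of_mem_primeFactors hq
          rw [ArithmeticFunction.vonMangoldt_apply_prime hqp]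
          have hlt : n / q < n := Nat.div_lt_self (by omega) hqp.one_lt
          have hsq' : Squarefree (n / q) := hsq.squarefree_of_dvd (Nat.div_dvd_of_dvd hqd)
          rw [ih (n / q) hlt hsq']
          have hpf : (n / q).primeFactors = n.primeFactors.erase q := by
            have hcop : Nat.Coprime (n / q) q := by
              rw [Nat.coprime_comm, hqp.coprime_iff_not_dvd]
              intro hdvd
              obtain ⟨c, hc⟩ := hdvd
              have hn2 : n = q * q * c := by
                rw [mul_assoc, ← hc]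
                exact (Nat.mul_div_cancel' hqd).symm
              have := hsq q ⟨c, hn2⟩
              exact hqp.one_lt.ne' (Nat.isUnit_iff.1 this)
            have h3 : n = n / q * q := (Nat.div_mul_cancel hqd).symm
            have h4 : n.primeFactors = (n / q).primeFactors ∪ {q} := by
              conv_lhs => rw [h3]
              rw [hcop.primeFactors_mul, hqp.primeFactors]
            rw [h4, Finset.union_comm, ← Finset.insert_eq, Finset.erase_insert]
            intro hmem
            have := Nat.dvd_of_mem_primeFactors hmem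
            exact (hqp.coprime_iff_not_dvd.1 hcop.symm) this
          rw [hpf, mul_assoc, Finset.mul_prod_erase _ _ hq]
        · intro d hd hd'
          rw [Nat.mem_divisors] at hd
          have : ArithmeticFunction.vonMangoldt d = 0 := by
            rw [ArithmeticFunction.vonMangoldt_eq_zero_iff]
            intro hpp
            have hsqd : Squarefree d := hsq.squarefree_of_dvd hd.1
            have hp : d.Prime := by
              obtain ⟨p, k, hp, hk, hpk⟩ := hpp
              rw [← Nat.prime_iff] at hp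
              have : k = 1 := by
                by_contra hne
                have h2 : 2 ≤ k := by omega
                have : p * p ∣ d := by
                  rw [← hpk, ← sq]
                  exact pow_dvd_pow p h2
                have := hsqd p this
                exact hp.one_lt.ne' (Nat.isUnit_iff.1 this)
              rw [this, pow_one] at hpk
              rwa [← hpk]
            exact hd' (Nat.mem_primeFactors.2 ⟨hp, hd.1, by omega⟩)
          rw [this]
          simp
      rw [e2, ← Finset.sum_mul] at e1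
      have e3 : (∑ q ∈ n.primeFactors, (Real.log q : ℂ)) = (Real.log n : ℂ) := by
        have h5 : (∏ q ∈ n.primeFactors, (q : ℝ)) = n := by
          have h6 := Nat.prod_primeFactors_of_squarefree hsq
          rw [← Nat.cast_prod, h6]
        rw [← h5, Real.log_prod]
        · push_cast
          rfl
        · intro q hq
          exact_mod_cast (Nat.prime_of_mem_primeFactors hq).ne_zero
      rw [e3, mul_comm] at e1
      exact mul_left_cancel₀ (log_ne hn) e1
    · interval_cases n
      · exact absurd hsq not_squarefree_zero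
      · simp [ha.2.1]

lemma herm_one {ι : Type} [Fintype ι] (u : ι → ℂ) :
    ∑ i, ∑ j, u i * (starRingEnd ℂ) (u j) = ((‖∑ i, u i‖ ^ 2 : ℝ) : ℂ) := by
  have : ∑ i, ∑ j, u i * (starRingEnd ℂ) (u j) = (∑ i, u i) * (starRingEnd ℂ) (∑ i, u i) := by
    rw [map_sum, Finset.sum_mul_sum]
  rw [this, Complex.mul_conj, Complex.normSq_eq_norm_sq]

theorem t_PSD : S_PSD := by
  intro ι _ g a ha u n
  induction n using Nat.strong_induction_on generalizing u with
  | _ n ih =>
    rcases Nat.lt_or_ge 1 n with hn | hn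
    · have hlog : 0 < Real.log n := Real.log_pos (by exact_mod_cast hn)
      have e1 : (Real.log n : ℂ) * ∑ i, ∑ j, u i * (starRingEnd ℂ) (u j) * a i j n =
          ∑ d ∈ n.divisors.erase 1, (ArithmeticFunction.vonMangoldt d : ℂ) *
            ∑ i, ∑ j, (u i * g i d) * (starRingEnd ℂ) (u j * g j d) * a i j (n / d) := by
        rw [Finset.mul_sum]
        simp_rw [Finset.mul_sum]
        symm
        rw [Finset.sum_comm]
        refine Finset.sum_congr rfl fun i _ => ?_
        rw [Finset.sum_comm]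
        refine Finset.sum_congr rfl fun j _ => ?_
        symm
        have h1 := (ha i j).2.2 n (by omega)
        rw [sum_erase _ _ n (by omega)] at h1
        calc (Real.log n : ℂ) * (u i * (starRingEnd ℂ) (u j) * a i j n) =
            u i * (starRingEnd ℂ) (u j) * (a i j n * (Real.log n : ℂ)) := by ring
          _ = _ := by
            rw [h1, Finset.mul_sum]
            refine Finset.sum_congr rfl fun d _ => ?_
            rw [map_mul]
            ring
      have e2 : 0 ≤ ((Real.log n : ℂ) * ∑ i, ∑ j, u i * (starRingEnd ℂ) (u j) * a i j n).re := by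
        rw [e1, Complex.re_sum]
        refine Finset.sum_nonneg fun d hd => ?_
        rw [Complex.re_ofReal_mul]
        exact mul_nonneg ArithmeticFunction.vonMangoldt_nonneg
          (ih (n / d) (div_lt_of (by omega) hd).1 _)
      rw [Complex.re_ofReal_mul] at e2
      exact nonneg_of_mul_nonneg_right e2 hlog
    · interval_cases n
      · have : ∀ i j, a i j 0 = 0 := fun i j => (ha i j).1
        simp [this]
      · have : ∀ i j, a i j 1 = 1 := fun i j => (ha i j).2.1
        simp only [this, mul_one]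
        rw [herm_one, Complex.ofReal_re]
        positivity

/-- **LS** (with the extra hypothesis `0 ≤ Δ`) -/
theorem t_LS' : ∀ (ι : Type) [Fintype ι] (g : ι → ℕ → ℂ) (a : ι → ι → ℕ → ℂ),
  (∀ i j, IsCf (fun d => g i d * (starRingEnd ℂ) (g j d)) (a i j)) →
  ∀ w : ℕ → ℝ, (∀ n, 0 ≤ w n) → (∀ i j, Summable fun n => ((w n : ℝ) : ℂ) * a i j n) →
  ∀ Δ : ℝ, 0 ≤ Δ → (∀ i, ∑ j, ‖∑' n, ((w n : ℝ) : ℂ) * a i j n‖ ≤ Δ) →
  (∀ j, ∑ i, ‖∑' n, ((w n : ℝ) : ℂ) * a i j n‖ ≤ Δ) →
  ∀ (S : Finset ℕ) (w₀ : ℝ), 0 < w₀ → (∀ n ∈ S, Squarefree n ∧ w₀ ≤ w n) →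
    w₀ * ∑ i, ‖∑ n ∈ S, ∏ q ∈ n.primeFactors, g i q‖ ^ 2 ≤ Δ * S.card := by
  intro ι _ g a ha w hw hsum Δ hΔ hrow hcol S w₀ hw₀ hS
  set P : ι → ℕ → ℂ := fun i n => ∏ q ∈ n.primeFactors, g i q with hP
  set T : ι → ℂ := fun i => ∑ n ∈ S, P i n with hT
  set u : ι → ℂ := fun i => (starRingEnd ℂ) (T i) with hu
  set N : ℝ := ∑ i, ‖T i‖ ^ 2 with hN
  set V : ℕ → ℂ := fun n => ∑ i, u i * P i n with hV
  have hN0 : 0 ≤ N := Finset.sum_nonneg fun i _ => by positivity
  change w₀ * N ≤ Δ * S.card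
  -- (1) N = ∑ V
  have h1 : (N : ℂ) = ∑ n ∈ S, V n := by
    rw [hV, Finset.sum_comm, hN]
    push_cast
    refine Finset.sum_congr rfl fun i _ => ?_
    rw [← Finset.mul_sum]
    have : u i * T i = ((‖T i‖ ^ 2 : ℝ) : ℂ) := by
      rw [hu, mul_comm, Complex.mul_conj, Complex.normSq_eq_norm_sq]
    rw [this]
    push_cast
    rfl
  have h2 : N ^ 2 ≤ S.card * ∑ n ∈ S, ‖V n‖ ^ 2 := by
    have h3 : N ≤ ∑ n ∈ S, ‖V n‖ := by
      have : ‖(N : ℂ)‖ ≤ ∑ n ∈ S, ‖V n‖ := by
        rw [h1]
        exact norm_sum_le _ _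
      rwa [Complex.norm_real, Real.norm_of_nonneg hN0] at this
    calc N ^ 2 ≤ (∑ n ∈ S, ‖V n‖) ^ 2 := by
          exact pow_le_pow_left₀ hN0 h3 2
      _ ≤ S.card * ∑ n ∈ S, ‖V n‖ ^ 2 := sq_sum_le_card_mul_sum_sq
  -- (3) the square of V
  have h3 : ∀ n ∈ S, ‖V n‖ ^ 2 = (∑ i, ∑ j, u i * (starRingEnd ℂ) (u j) * a i j n).re := by
    intro n hn
    have e := herm_one (fun i => u i * P i n)
    have e2 : ∑ i, ∑ j, u i * (starRingEnd ℂ) (u j) * a i j n =
        ∑ i, ∑ j, (u i * P i n) * (starRingEnd ℂ) (u j * P j n) := by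
      refine Finset.sum_congr rfl fun i _ => Finset.sum_congr rfl fun j _ => ?_
      rw [t_SQF _ _ (ha i j) n (hS n hn).1, Finset.prod_mul_distrib, map_mul, hP, ← map_prod]
      ring
    rw [e2, e, Complex.ofReal_re]
  have hPSD := t_PSD ι g a ha u
  have hs : Summable fun n => w n * (∑ i, ∑ j, u i * (starRingEnd ℂ) (u j) * a i j n).re := by
    have : Summable fun n => ∑ i, ∑ j, u i * (starRingEnd ℂ) (u j) * (((w n : ℝ) : ℂ) * a i j n) :=
      summable_sum fun i _ => summable_sum fun j _ => (hsum i j).mul_left _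
    have h4 := (Complex.hasSum_re this.hasSum).summable
    refine h4.congr fun n => ?_
    rw [← Complex.re_ofReal_mul, Finset.mul_sum]
    congr 1
    refine Finset.sum_congr rfl fun i _ => ?_
    rw [Finset.mul_sum]
    refine Finset.sum_congr rfl fun j _ => ?_
    ring
  have h5 : w₀ * ∑ n ∈ S, ‖V n‖ ^ 2 ≤
      ∑' n, w n * (∑ i, ∑ j, u i * (starRingEnd ℂ) (u j) * a i j n).re := by
    rw [Finset.mul_sum]
    calc ∑ n ∈ S, w₀ * ‖V n‖ ^ 2 ≤
        ∑ n ∈ S, w n * (∑ i, ∑ j, u i * (starRingEnd ℂ) (u j) * a i j n).re := by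
          refine Finset.sum_le_sum fun n hn => ?_
          rw [← h3 n hn]
          exact mul_le_mul_of_nonneg_right (hS n hn).2 (by positivity)
      _ ≤ _ := hs.sum_le_tsum _ fun n _ => mul_nonneg (hw n) (hPSD n)
  have h6 : ∑' n, w n * (∑ i, ∑ j, u i * (starRingEnd ℂ) (u j) * a i j n).re ≤ Δ * N := by
    have e1 : ∑' n, w n * (∑ i, ∑ j, u i * (starRingEnd ℂ) (u j) * a i j n).re =
        (∑ i, ∑ j, u i * (starRingEnd ℂ) (u j) * ∑' n, (((w n : ℝ) : ℂ) * a i j n)).re := by
      have hh : HasSum (fun n => ∑ i, ∑ j, u i * (starRingEnd ℂ) (u j) * (((w n : ℝ) : ℂ) * a i j n))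
          (∑ i, ∑ j, u i * (starRingEnd ℂ) (u j) * ∑' n, (((w n : ℝ) : ℂ) * a i j n)) :=
        hasSum_sum fun i _ => hasSum_sum fun j _ => (hsum i j).hasSum.mul_left _
      have h4 := (Complex.hasSum_re hh).tsum_eq
      rw [← h4]
      refine tsum_congr fun n => ?_
      rw [← Complex.re_ofReal_mul, Finset.mul_sum]
      congr 1
      refine Finset.sum_congr rfl fun i _ => ?_
      rw [Finset.mul_sum]
      refine Finset.sum_congr rfl fun j _ => ?_
      ring
    rw [e1]
    have hun : ∀ i, ‖u i‖ = ‖T i‖ := fun i => by rw [hu]; exact Complex.norm_conj _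
    set A : ι → ι → ℝ := fun i j => ‖∑' n, (((w n : ℝ) : ℂ) * a i j n)‖ with hA
    calc (∑ i, ∑ j, u i * (starRingEnd ℂ) (u j) * ∑' n, (((w n : ℝ) : ℂ) * a i j n)).re ≤
        ‖∑ i, ∑ j, u i * (starRingEnd ℂ) (u j) * ∑' n, (((w n : ℝ) : ℂ) * a i j n)‖ :=
          Complex.re_le_norm _
      _ ≤ ∑ i, ∑ j, ‖T i‖ * ‖T j‖ * A i j := by
          refine (norm_sum_le _ _).trans (Finset.sum_le_sum fun i _ => ?_)
          refine (norm_sum_le _ _).trans (Finset.sum_le_sum fun j _ => ?_)
          have h7 : ‖(starRingEnd ℂ) (u j)‖ = ‖T j‖ := (Complex.norm_conj (u j)).trans (hun j)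
          rw [norm_mul, norm_mul, h7, hun]
      _ ≤ ∑ i, ∑ j, ((‖T i‖ ^ 2 / 2) * A i j + (‖T j‖ ^ 2 / 2) * A i j) := by
          refine Finset.sum_le_sum fun i _ => Finset.sum_le_sum fun j _ => ?_
          have h7 : ‖T i‖ * ‖T j‖ ≤ ‖T i‖ ^ 2 / 2 + ‖T j‖ ^ 2 / 2 := by
            nlinarith [sq_nonneg (‖T i‖ - ‖T j‖)]
          have h8 : 0 ≤ A i j := norm_nonneg _
          nlinarith
      _ = (∑ i, (‖T i‖ ^ 2 / 2) * ∑ j, A i j) + ∑ j, (‖T j‖ ^ 2 / 2) * ∑ i, A i j := by
          simp_rw [Finset.sum_add_distrib, Finset.mul_sum]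
          congr 1
          rw [Finset.sum_comm]
      _ ≤ (∑ i, (‖T i‖ ^ 2 / 2) * Δ) + ∑ j, (‖T j‖ ^ 2 / 2) * Δ := by
          refine add_le_add (Finset.sum_le_sum fun i _ => ?_) (Finset.sum_le_sum fun j _ => ?_)
          · exact mul_le_mul_of_nonneg_left (hrow i) (by positivity)
          · exact mul_le_mul_of_nonneg_left (hcol j) (by positivity)
      _ = Δ * N := by
          rw [← Finset.sum_mul, ← Finset.sum_div]
          ring
  have h9 : w₀ * N ^ 2 ≤ (S.card : ℝ) * (Δ * N) := by
    calc w₀ * N ^ 2 ≤ w₀ * (S.card * ∑ n ∈ S, ‖V n‖ ^ 2) := mul_le_mul_of_nonneg_left h2 hw₀.le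
      _ = (S.card : ℝ) * (w₀ * ∑ n ∈ S, ‖V n‖ ^ 2) := by ring
      _ ≤ (S.card : ℝ) * (Δ * N) :=
          mul_le_mul_of_nonneg_left (h5.trans h6) (Nat.cast_nonneg _)
  rcases hN0.eq_or_lt with h0 | h0
  · rw [← h0, mul_zero]
    positivity
  · have : N * (w₀ * N) ≤ N * (Δ * S.card) := by nlinarith
    exact le_of_mul_le_mul_left this h0

/-- **LS** (`t_PSD`, `t_SQF` are used) -/
theorem t_LS : S_LS := t_LS'

end Pool.Agent.J4H19.GP
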